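import Pool.Agent.H851.VG.HC
import Pool.Agent.H851.VC.LE

/-!
MP_f053ce_co. The maximal number `f_k(n)` of edges of a critical (= vertex-critical) `k`-chromatic
graph of order `n` satisfies, for every fixed `k ≥ 4`,
f_k(n) = (1/2) (1 - 1/(k-2)) n^2 + o(n^2); more precisely
(k-3)/(2(k-2)) n^2 - 14 (k-2)^2 n^(3/2) ≤ f_k(n) for every n, and
f_k(n) / n^2 → (k-3)/(2(k-2)).
-/

open Finset Filter Topology
open scoped Classical

namespace Pool.Agent.Results.MP_f053ce_co.Asymptotic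

/-- `G` is critical `k`-chromatic: `χ(G) = k` and `χ(G - x) = k - 1` for every vertex `x`. -/
def IsCriticalChromatic {V : Type} (G : SimpleGraph V) (k : ℕ) : Prop :=
  G.chromaticNumber = (k : ℕ∞) ∧
    ∀ x : V, (G.induce {y : V | y ≠ x}).chromaticNumber = ((k - 1 : ℕ) : ℕ∞)

/-- `maxEdges k n` is the maximal number of edges of a critical `k`-chromatic graph on `n`
vertices (and `0` if there is none). -/
noncomputable def maxEdges (k n : ℕ) : ℕ :=
  sSup {m : ℕ | ∃ G : SimpleGraph (Fin n), IsCriticalChromatic G k ∧ G.edgeSet.ncard = m}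

theorem crit_of {V : Type} (G : SimpleGraph V) (p : ℕ) (h : IsCriticalChromatic G (p + 2)) :
    H851VG.Crit (p + 1) G := by
  constructor
  · intro f
    by_contra hno
    push Not at hno
    have hcol : G.Colorable (p + 1) :=
      ⟨SimpleGraph.Coloring.mk f (fun {u w} huw => hno u w huw)⟩
    have h1 := hcol.chromaticNumber_le
    rw [h.1] at h1
    have h2 : p + 2 ≤ p + 1 := by exact_mod_cast h1
    omega
  · intro v
    have h1 := h.2 v
    have h2 : (G.induce {y : V | y ≠ v}).Colorable (p + 1) := by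
      rw [← SimpleGraph.chromaticNumber_le_iff_colorable, h1]
      exact_mod_cast (by omega : p + 2 - 1 ≤ p + 1)
    obtain ⟨C⟩ := h2
    refine ⟨fun y => if hy : y ≠ v then C ⟨y, hy⟩ else 0, fun u w hu hw huw => ?_⟩
    simp only [dif_pos hu, dif_pos hw]
    exact C.valid (by simpa using huw)

theorem of_crit {V : Type} (G : SimpleGraph V) (p : ℕ) (h : H851VG.Crit (p + 1) G) :
    IsCriticalChromatic G (p + 2) := by
  have hnot : ¬ G.Colorable (p + 1) := by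
    rintro ⟨C⟩
    obtain ⟨u, w, huw, he⟩ := h.1 C
    exact C.valid huw he
  obtain ⟨v0, _⟩ := h.1 (fun _ => 0)
  constructor
  · obtain ⟨f, hf⟩ := h.2 v0
    have hcol : G.Colorable (p + 1 + 1) := by
      refine ⟨SimpleGraph.Coloring.mk
        (fun y => if y = v0 then (Fin.last (p + 1)) else (f y).castSucc) ?_⟩
      intro u w huw
      by_cases hu : u = v0
      · have hw : w ≠ v0 := fun h => huw.ne (hu.trans h.symm)
        rw [if_pos hu, if_neg hw]
        intro he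
        exact absurd he.symm (Fin.castSucc_lt_last (f w)).ne
      · by_cases hw : w = v0
        · rw [if_neg hu, if_pos hw]
          exact (Fin.castSucc_lt_last (f u)).ne
        · rw [if_neg hu, if_neg hw]
          intro he
          exact hf u w hu hw huw (Fin.castSucc_injective _ he)
    exact (SimpleGraph.chromaticNumber_eq_iff_colorable_not_colorable (n := p + 1)).2
      ⟨hcol, hnot⟩
  · intro x
    obtain ⟨f, hf⟩ := h.2 x
    have h3 : (G.induce {y : V | y ≠ x}).Colorable (p + 1) := by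
      refine ⟨SimpleGraph.Coloring.mk (fun y => f y.1) ?_⟩
      intro u w huw
      exact hf u.1 w.1 u.2 w.2 (by simpa using huw)
    have e : p + 2 - 1 = p + 1 := rfl
    rw [e]
    refine (SimpleGraph.chromaticNumber_eq_iff_colorable_not_colorable (n := p)).2 ⟨h3, ?_⟩
    rintro ⟨C⟩
    apply hnot
    refine ⟨SimpleGraph.Coloring.mk
        (fun y => if hy : y ≠ x then (C ⟨y, hy⟩).castSucc else (Fin.last p)) ?_⟩
    intro u w huw
    by_cases hu : u = x
    · have hw : w ≠ x := fun h => huw.ne (hu.trans h.symm)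
      rw [dif_neg (not_not.2 hu), dif_pos hw]
      intro he
      exact absurd he.symm (Fin.castSucc_lt_last (C ⟨w, hw⟩)).ne
    · by_cases hw : w = x
      · rw [dif_pos hu, dif_neg (not_not.2 hw)]
        exact (Fin.castSucc_lt_last (C ⟨u, hu⟩)).ne
      · rw [dif_pos hu, dif_pos hw]
        intro he
        exact C.valid (by simpa using huw) (Fin.castSucc_injective _ he)

theorem e2_univ {n : ℕ} (G : SimpleGraph (Fin n)) :
    H851VC.e2 G Finset.univ = 2 * G.edgeSet.ncard := by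
  have h1 : G.edgeSet.ncard = G.edgeFinset.card := by
    rw [Set.ncard_eq_toFinset_card']
    rfl
  rw [h1, ← G.sum_degrees_eq_twice_card_edges]
  unfold H851VC.e2 H851VC.dg
  refine Finset.sum_congr rfl (fun v _ => ?_)
  rw [← SimpleGraph.card_neighborFinset_eq_degree]
  congr 1
  ext w
  simp

theorem bdd (k n : ℕ) : BddAbove {m : ℕ | ∃ G : SimpleGraph (Fin n),
    IsCriticalChromatic G k ∧ G.edgeSet.ncard = m} := by
  refine ⟨n ^ 2, ?_⟩
  rintro m ⟨G, _, rfl⟩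
  have h1 := H851VC.e2_le G Finset.univ
  rw [e2_univ, Finset.card_univ, Fintype.card_fin] at h1
  omega

theorem rpow32 (n : ℕ) : (n : ℝ) ^ ((3 : ℝ) / 2) = n * Real.sqrt n := by
  have hn0 : (0 : ℝ) ≤ n := by positivity
  rw [show (3 : ℝ) / 2 = 1 + 1 / 2 by norm_num, Real.rpow_add' hn0 (by norm_num),
    Real.rpow_one, Real.sqrt_eq_rpow]

theorem lower (p : ℕ) (hp : 2 ≤ p) (n : ℕ) :
    (1 - 1 / (p : ℝ)) / 2 * (n : ℝ) ^ 2 - 14 * (p : ℝ) ^ 2 * (n : ℝ) ^ ((3 : ℝ) / 2) ≤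
      (maxEdges (p + 2) n : ℝ) := by
  rw [rpow32]
  have hpr : (2 : ℝ) ≤ p := by exact_mod_cast hp
  by_cases hn : p ^ 2 + 53 * p ≤ 2 * n
  · obtain ⟨s, hs, h1, h2, G, hG, hm⟩ := H851VG.has_all p hp n hn
    have h3 := H851VG.lower_arith p (14 * p ^ 2) n s hp hs h2 h1
    rw [e2_univ] at hm
    have h4 : G.edgeSet.ncard ≤ maxEdges (p + 2) n :=
      le_csSup (bdd _ n) ⟨G, of_crit G p hG, rfl⟩
    have h5 : ((p * (p - 1) * s ^ 4 : ℕ) : ℝ) ≤ 2 * (maxEdges (p + 2) n : ℝ) := by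
      exact_mod_cast (by omega : p * (p - 1) * s ^ 4 ≤ 2 * maxEdges (p + 2) n)
    push_cast at h3 h5 ⊢
    linarith
  · push Not at hn
    have h0 : (0 : ℝ) ≤ (maxEdges (p + 2) n : ℝ) := by positivity
    refine le_trans ?_ h0
    have hn0 : (0 : ℝ) ≤ n := by positivity
    have hnr : 2 * (n : ℝ) ≤ (p : ℝ) ^ 2 + 53 * p := by exact_mod_cast hn.le
    have h1 : (n : ℝ) ≤ (14 * (p : ℝ) ^ 2) ^ 2 := by
      have : (53 : ℝ) * p ≤ 27 * (p : ℝ) ^ 2 := by nlinarith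
      have h2 : (1 : ℝ) ≤ 14 * (p : ℝ) ^ 2 := by nlinarith
      nlinarith
    have h2 : Real.sqrt n ≤ 14 * (p : ℝ) ^ 2 := by
      rw [Real.sqrt_le_left (by positivity)]
      exact h1
    have h3 : Real.sqrt n * Real.sqrt n = n := Real.mul_self_sqrt hn0
    have h4 : 0 ≤ Real.sqrt n := Real.sqrt_nonneg _
    have h5 : (n : ℝ) ^ 2 ≤ 14 * (p : ℝ) ^ 2 * (n * Real.sqrt n) := by
      calc (n : ℝ) ^ 2 = (n * Real.sqrt n) * Real.sqrt n := by rw [mul_assoc, h3]; ring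
        _ ≤ (n * Real.sqrt n) * (14 * (p : ℝ) ^ 2) :=
            mul_le_mul_of_nonneg_left h2 (by positivity)
        _ = _ := by ring
    have h6 : 0 < 1 / (p : ℝ) := by positivity
    have h7 : (1 - 1 / (p : ℝ)) / 2 * (n : ℝ) ^ 2 ≤ 1 * (n : ℝ) ^ 2 :=
      mul_le_mul_of_nonneg_right (by linarith) (by positivity)
    linarith

theorem upper (p : ℕ) (hp : 2 ≤ p) (ε : ℝ) (hε : 0 < ε) :
    ∃ N : ℕ, ∀ n : ℕ, N ≤ n →
      (maxEdges (p + 2) n : ℝ) ≤ ((1 - 1 / (p : ℝ)) / 2 + ε) * (n : ℝ) ^ 2 := by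
  have hpr : (2 : ℝ) ≤ p := by exact_mod_cast hp
  have hp0 : (0 : ℝ) < p := by linarith
  set η : ℝ := min ε (1 / p) with hη
  have hη0 : 0 < η := by positivity
  have hη1 : p * η ≤ 1 := by
    calc (p : ℝ) * η ≤ p * (1 / p) := mul_le_mul_of_nonneg_left (min_le_right _ _) hp0.le
      _ = 1 := by field_simp
  have hηε : η ≤ ε := min_le_left _ _
  set R : ℝ := (p * η) ^ (p + 1) * η * (η / 2) ^ (p + 2) with hR
  have hR0 : 0 < R := by positivity
  set γ : ℝ := R / (4 * (p + 1)) with hγ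
  have hγ0 : 0 < γ := by positivity
  have hγR : 2 * (p + 1) * γ < R := by
    have : 2 * ((p : ℝ) + 1) * γ = R / 2 := by
      rw [hγ]; field_simp; norm_num
    rw [this]; linarith
  set k : ℕ := ⌈2 / γ⌉₊ with hk
  obtain ⟨N1, hN1⟩ := exists_nat_gt (2 * p + 3 + k + p * (k : ℝ) ^ 2)
  obtain ⟨N2, hN2⟩ := exists_nat_gt (4 * ((k : ℝ) + k ^ 2) / η)
  obtain ⟨N3, hN3⟩ := exists_nat_gt (6 / η ^ 2)
  refine ⟨max N1 (max N2 N3), fun n hn => ?_⟩
  have g1 : N1 ≤ n := le_trans (le_max_left _ _) hn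
  have g2 : N2 ≤ n := le_trans (le_trans (le_max_left _ _) (le_max_right _ _)) hn
  have g3 : N3 ≤ n := le_trans (le_trans (le_max_right _ _) (le_max_right _ _)) hn
  have r1 : (N1 : ℝ) ≤ n := by exact_mod_cast g1
  have r2 : (N2 : ℝ) ≤ n := by exact_mod_cast g2
  have r3 : (N3 : ℝ) ≤ n := by exact_mod_cast g3
  have hall : ∀ m ∈ {m : ℕ | ∃ G : SimpleGraph (Fin n), IsCriticalChromatic G (p + 2) ∧
      G.edgeSet.ncard = m}, (m : ℝ) ≤ ((1 - 1 / (p : ℝ)) / 2 + ε) * (n : ℝ) ^ 2 := by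
    rintro m ⟨G, hG, rfl⟩
    have hC := crit_of G p hG
    have h1 := H851VG.upper G p hp η γ hη0 hη1 hγ0 hγR hC.2 hC.1 k hk
      (by rw [Fintype.card_fin]; linarith)
      (by
        rw [Fintype.card_fin]
        have := (div_lt_iff₀ hη0).1 (hN2.trans_le r2)
        linarith)
      (by
        rw [Fintype.card_fin]
        have := (div_lt_iff₀ (by positivity : 0 < η ^ 2)).1 (hN3.trans_le r3)
        linarith)
    rw [e2_univ, Fintype.card_fin] at h1
    push_cast at h1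
    have h2 : η * (n : ℝ) ^ 2 ≤ ε * (n : ℝ) ^ 2 :=
      mul_le_mul_of_nonneg_right hηε (by positivity)
    linarith
  have hpinv : 1 / (p : ℝ) ≤ 1 / 2 := one_div_le_one_div_of_le (by norm_num) hpr
  rcases Set.eq_empty_or_nonempty {m : ℕ | ∃ G : SimpleGraph (Fin n),
      IsCriticalChromatic G (p + 2) ∧ G.edgeSet.ncard = m} with he | hne
  · have h0 : maxEdges (p + 2) n = 0 := by
      unfold maxEdges
      rw [he]
      simp
    rw [h0]
    have : (0 : ℝ) ≤ ((1 - 1 / (p : ℝ)) / 2 + ε) * (n : ℝ) ^ 2 := by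
      apply mul_nonneg _ (by positivity)
      linarith
    simpa using this
  · exact hall _ (Nat.sSup_mem hne (bdd _ n))

theorem limit (p : ℕ) (hp : 2 ≤ p) :
    Tendsto (fun n : ℕ => (maxEdges (p + 2) n : ℝ) / (n : ℝ) ^ 2) atTop
      (𝓝 ((1 - 1 / (p : ℝ)) / 2)) := by
  rw [Metric.tendsto_atTop]
  intro ε hε
  have hpr : (2 : ℝ) ≤ p := by exact_mod_cast hp
  obtain ⟨N0, hN0⟩ := upper p hp (ε / 2) (by positivity)
  obtain ⟨N4, hN4⟩ := exists_nat_gt ((14 * (p : ℝ) ^ 2 / (ε / 2)) ^ 2)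
  refine ⟨max N0 (max N4 1), fun n hn => ?_⟩
  have g0 : N0 ≤ n := le_trans (le_max_left _ _) hn
  have g4 : N4 ≤ n := le_trans (le_trans (le_max_left _ _) (le_max_right _ _)) hn
  have g5 : 1 ≤ n := le_trans (le_trans (le_max_right _ _) (le_max_right _ _)) hn
  have r4 : (N4 : ℝ) ≤ n := by exact_mod_cast g4
  have r5 : (1 : ℝ) ≤ n := by exact_mod_cast g5
  have hn0 : (0 : ℝ) < n := by linarith
  have hn2 : (0 : ℝ) < (n : ℝ) ^ 2 := by positivity
  have hup := hN0 n g0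
  have hlo := lower p hp n
  rw [rpow32] at hlo
  have hsq : 14 * (p : ℝ) ^ 2 * Real.sqrt n < ε * n := by
    have h1 : 14 * (p : ℝ) ^ 2 / (ε / 2) < Real.sqrt n := by
      apply Real.lt_sqrt_of_sq_lt
      linarith
    have h2 : 14 * (p : ℝ) ^ 2 < Real.sqrt n * (ε / 2) := (div_lt_iff₀ (by positivity)).1 h1
    have h3 : Real.sqrt n * Real.sqrt n = n := Real.mul_self_sqrt hn0.le
    have h4 : 0 < Real.sqrt n := Real.sqrt_pos.2 hn0
    nlinarith
  rw [Real.dist_eq, abs_lt]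
  constructor
  · have h1 : (1 - 1 / (p : ℝ)) / 2 - ε < (maxEdges (p + 2) n : ℝ) / (n : ℝ) ^ 2 := by
      rw [lt_div_iff₀ hn2]
      nlinarith
    linarith
  · have h1 : (maxEdges (p + 2) n : ℝ) / (n : ℝ) ^ 2 ≤ (1 - 1 / (p : ℝ)) / 2 + ε / 2 := by
      rw [div_le_iff₀ hn2]; exact hup
    linarith

theorem four (n : ℕ) : (n : ℝ) ^ 2 / 4 - 25 * (n : ℝ) ^ ((3 : ℝ) / 2) ≤ (maxEdges 4 n : ℝ) := by
  by_cases hn : 55 ≤ n
  · obtain ⟨s, _, h1, h2, G, hG, hm⟩ := H851VC.has_all n hn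
    have h3 : s ^ 4 ≤ maxEdges 4 n := by
      rw [e2_univ] at hm
      have h4 : G.edgeSet.ncard ≤ maxEdges 4 n := le_csSup (bdd 4 n) ⟨G, of_crit G 2 hG, rfl⟩
      omega
    exact (H851VC.lower_arith n s h2 h1).trans (by exact_mod_cast h3)
  · push Not at hn
    have h0 : (0 : ℝ) ≤ (maxEdges 4 n : ℝ) := by positivity
    have hnr : (n : ℝ) ≤ 55 := by exact_mod_cast hn.le
    have hn0 : (0 : ℝ) ≤ n := by positivity
    refine le_trans ?_ h0
    rw [rpow32]
    rcases Nat.eq_zero_or_pos n with rfl | hpos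
    · simp
    · have h1 : (1 : ℝ) ≤ Real.sqrt n := by
        apply Real.one_le_sqrt.2; exact_mod_cast hpos
      nlinarith

theorem result :
    (∀ k : ℕ, 4 ≤ k →
      (∀ n : ℕ, ((k : ℝ) - 3) / (2 * ((k : ℝ) - 2)) * (n : ℝ) ^ 2 -
        14 * ((k : ℝ) - 2) ^ 2 * (n : ℝ) ^ ((3 : ℝ) / 2) ≤ (maxEdges k n : ℝ)) ∧
      Tendsto (fun n : ℕ => (maxEdges k n : ℝ) / (n : ℝ) ^ 2) atTop
        (𝓝 (((k : ℝ) - 3) / (2 * ((k : ℝ) - 2))))) ∧
    ∀ n : ℕ, (n : ℝ) ^ 2 / 4 - 25 * (n : ℝ) ^ ((3 : ℝ) / 2) ≤ (maxEdges 4 n : ℝ) := by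
  refine ⟨fun k hk => ?_, four⟩
  obtain ⟨p, rfl⟩ := Nat.exists_eq_add_of_le' (show 2 ≤ k by omega)
  have hp : 2 ≤ p := by omega
  have hpr : (2 : ℝ) ≤ p := by exact_mod_cast hp
  have hp0 : (p : ℝ) ≠ 0 := by positivity
  have e1 : (((p + 2 : ℕ) : ℝ) - 3) / (2 * (((p + 2 : ℕ) : ℝ) - 2)) = (1 - 1 / (p : ℝ)) / 2 := by
    push_cast
    rw [show (p : ℝ) + 2 - 3 = p - 1 by ring, show (p : ℝ) + 2 - 2 = p by ring]
    field_simp
  have e2 : ((p + 2 : ℕ) : ℝ) - 2 = p := by push_cast; ring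
  rw [e1, e2]
  exact ⟨lower p hp, limit p hp⟩

end Pool.Agent.Results.MP_f053ce_co.Asymptotic
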